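import Pool.Agent.H84.OR.TP

/-!
# Row TC of org_modules: elements which commensurate a translation
-/

set_option autoImplicit false

namespace Pool.Agent.H84.OR

open ORg

/-- a discrete intermediate value -/
theorem exists_step (P : ℤ → Prop) (N : ℕ) (h1 : ¬ P (-N)) (h2 : P N) :
    ∃ k : ℤ, ¬ P k ∧ P (k + 1) := by
  by_contra hcon
  push Not at hcon
  have h3 : ∀ i : ℕ, ¬ P (-N + i) := by
    intro i
    induction i with
    | zero => simpa using h1
    | succ i ih =>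
      have := hcon _ ih
      rw [add_assoc] at this
      push_cast
      exact this
  have h4 := h3 (2 * N)
  rw [show (-(N : ℤ) + ((2 * N : ℕ) : ℤ)) = N by push_cast; ring] at h4
  exact h4 h2

/-- an element which commutes with a translation has a power which is a power of it -/
theorem comm_power (TA : T_TA) (TN : T_TN) {G : Type} [Group G] (S : GTree G) (z s : G)
    (hac : S.AC) (hz : ∀ v : S.V, z • v ≠ v) (hcomm : Commute s z) :
    ∃ d : ℕ, 0 < d ∧ s ^ d ∈ Subgroup.zpowers z := by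
  have hTA := TA G S
  obtain ⟨-, hadj, hhs, hpart, -, -, -, -, -, hfin⟩ := hTA
  obtain ⟨a, b, hab⟩ := exists_mv TA hz
  have key : ∀ j : ℕ, ∃ k : ℤ, ((z ^ k)⁻¹ • (s ^ j) • a, (z ^ k)⁻¹ • (s ^ j) • b) ∈
      {p : S.V × S.V | S.T.Adj p.1 p.2 ∧ a ∈ S.hs p.1 p.2 ∧ z • a ∈ S.hs p.2 p.1} := by
    intro j
    have hsj : Commute (s ^ j) z := hcomm.pow_left j
    have hmv : Mv S z ((s ^ j) • a) ((s ^ j) • b) := by
      refine ⟨(hadj _ _ _).2 hab.1, ?_, ?_⟩
      · rw [← mul_smul, ← hsj.eq, mul_smul, hhs]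
        exact hab.2.1
      · rw [← mul_smul, ← hsj.eq, mul_smul, ← mul_smul z, ← hsj.eq, mul_smul (s ^ j) z, hhs]
        exact hab.2.2
    obtain ⟨-, hax⟩ := hmv.axis TA TN
    obtain ⟨N, hN⟩ := hax a
    obtain ⟨h1, h2⟩ := hN N le_rfl
    obtain ⟨k, hk1, hk2⟩ := exists_step
      (fun k : ℤ => (z ^ k) • a ∈ S.hs ((s ^ j) • b) ((s ^ j) • a)) N
      (by
        intro h
        have h3 : (z ^ (-(N : ℤ))) • a = (z⁻¹ ^ N) • a := by
          rw [zpow_neg, zpow_natCast, inv_pow]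
        rw [h3] at h
        exact (hpart _ _ hmv.1 _).2 ⟨h2, h⟩)
      (by
        show (z ^ (N : ℤ)) • a ∈ S.hs ((s ^ j) • b) ((s ^ j) • a)
        rw [zpow_natCast]
        exact h1)
    refine ⟨k, (hadj _ _ _).2 hmv.1, ?_, ?_⟩
    · have h3 := ((hpart _ _ hmv.1 ((z ^ k) • a)).1).resolve_right hk1
      rw [← hhs (z ^ k)⁻¹, inv_smul_smul] at h3
      exact h3
    · have h3 := hk2
      rw [← hhs (z ^ k)⁻¹, zpow_add, zpow_one, mul_smul, inv_smul_smul] at h3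
      exact h3
  choose κ hκ using key
  have hfin2 : Finite {p : S.V × S.V | S.T.Adj p.1 p.2 ∧ a ∈ S.hs p.1 p.2 ∧
      z • a ∈ S.hs p.2 p.1} := hfin a (z • a)
  obtain ⟨i, j, hij, he⟩ := Finite.exists_ne_map_eq_of_infinite
    (fun n : ℕ => (⟨_, hκ n⟩ : {p : S.V × S.V | S.T.Adj p.1 p.2 ∧ a ∈ S.hs p.1 p.2 ∧
      z • a ∈ S.hs p.2 p.1}))
  rw [Subtype.mk.injEq, Prod.mk.injEq] at he
  have hlt : ∀ i j : ℕ, i < j → (z ^ κ i)⁻¹ • (s ^ i) • a = (z ^ κ j)⁻¹ • (s ^ j) • a →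
      (z ^ κ i)⁻¹ • (s ^ i) • b = (z ^ κ j)⁻¹ • (s ^ j) • b →
      ∃ d : ℕ, 0 < d ∧ s ^ d ∈ Subgroup.zpowers z := by
    intro i j hij hea heb
    obtain ⟨d, rfl⟩ : ∃ d, j = i + (d + 1) := ⟨j - i - 1, by omega⟩
    refine ⟨d + 1, Nat.succ_pos d, ?_⟩
    set h : G := (z ^ κ i) * (z ^ κ (i + (d + 1)))⁻¹ * s ^ (d + 1) with hh
    have hsz : ∀ (p : ℕ) (q : ℤ), Commute (s ^ p) (z ^ q) := fun p q =>
      (hcomm.pow_left p).zpow_right q
    have hz' : ∀ q : ℤ, Commute z (z ^ q) := fun q => (Commute.refl z).zpow_right q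
    have hfix : ∀ v : S.V, (z ^ κ i)⁻¹ • (s ^ i) • v =
        (z ^ κ (i + (d + 1)))⁻¹ • (s ^ (i + (d + 1))) • v → h • v = v := by
      intro v hv
      rw [inv_smul_eq_iff, ← mul_smul, ← mul_smul, pow_add, eq_comm, ← inv_smul_eq_iff,
        ← mul_smul] at hv
      rw [← hv]
      congr 1
      · have e1 := (hsz i (κ i)).eq
        have e2 := (hsz i (κ (i + (d + 1)))).inv_right.eq
        rw [hh]
        calc z ^ κ i * (z ^ κ (i + (d + 1)))⁻¹ * s ^ (d + 1)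
            = (s ^ i)⁻¹ * (s ^ i * z ^ κ i) * (z ^ κ (i + (d + 1)))⁻¹ * s ^ (d + 1) := by group
          _ = (s ^ i)⁻¹ * z ^ κ i * (s ^ i * (z ^ κ (i + (d + 1)))⁻¹) * s ^ (d + 1) := by
              rw [e1]; group
          _ = (s ^ i)⁻¹ * (z ^ κ i * (z ^ κ (i + (d + 1)))⁻¹ * (s ^ i * s ^ (d + 1))) := by
              rw [e2]; group
    have ha := hfix a hea
    have hb := hfix b heb
    have hhz : Commute h z := by
      rw [hh]
      exact (((hz' _).symm).mul_left ((hz' _).inv_right.symm)).mul_left (hcomm.pow_left _)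
    have hone : h = 1 := by
      by_contra hne
      have hred : ∀ r : S.V, S.red r → h • r = r → False := by
        intro r hr hfr
        have h2 : h • z • r = z • r := by
          rw [← mul_smul, hhz.eq, mul_smul, hfr]
        exact hz r (hac h hne (z • r) r ((S.red_smul z r).2 hr) hr h2 hfr)
      by_cases hra : S.red a
      · exact hred a hra ha
      · refine hred b ?_ hb
        have := S.red_adj a b hab.1
        tauto
    rw [Subgroup.mem_zpowers_iff]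
    refine ⟨κ (i + (d + 1)) - κ i, ?_⟩
    rw [zpow_sub, (Commute.refl z).zpow_zpow _ _ |>.inv_right.eq]
    have h3 : z ^ κ i * (z ^ κ (i + (d + 1)))⁻¹ * s ^ (d + 1) = 1 := hone
    have h4 : s ^ (d + 1) = (z ^ κ i * (z ^ κ (i + (d + 1)))⁻¹)⁻¹ := (inv_eq_of_mul_eq_one_right h3).symm
    rw [h4, mul_inv_rev, inv_inv, (Commute.refl z).zpow_zpow _ _ |>.inv_right.eq]
  rcases Nat.lt_or_gt_of_ne hij with h' | h'
  · exact hlt i j h' he.1 he.2
  · exact hlt j i h' he.1.symm he.2.symm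

theorem pf_TC (TA : T_TA) (TN : T_TN) (TP : T_TP) (TH : T_TH) (TL : T_TL) : T_TC := by
  intro G _ S c g m n hac hc hm hn h
  have habs := TL G S c g m n hc hm hn h
  obtain ⟨a, b, hax⟩ := TH G S c hc
  have hz : ∀ v : S.V, (c ^ m) • v ≠ v := (TP G S c a b).2 hax m hm
  have hcomm : Commute (g ^ 2) (c ^ m) := by
    have h1 : g ^ 2 * c ^ m * (g ^ 2)⁻¹ = g * (g * c ^ m * g⁻¹) * g⁻¹ := by
      rw [pow_two, mul_inv_rev]
      simp only [mul_assoc]
    have h2 : g ^ 2 * c ^ m * (g ^ 2)⁻¹ = c ^ m := by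
      rw [h1, h]
      rcases abs_eq_abs.1 habs with h3 | h3
      · rw [← h3, h, ← h3]
      · have h4 : n = -m := by omega
        rw [h4, zpow_neg, ← conj_inv, h, h4, zpow_neg, inv_inv]
    exact mul_inv_eq_iff_eq_mul.1 h2
  obtain ⟨d, hd, hmem⟩ := comm_power TA TN S (c ^ m) (g ^ 2) hac hz hcomm
  refine ⟨((2 * d : ℕ) : ℤ), by positivity, ?_⟩
  rw [zpow_natCast, pow_mul]
  obtain ⟨k, hk⟩ := Subgroup.mem_zpowers_iff.1 hmem
  rw [Subgroup.mem_zpowers_iff]
  exact ⟨m * k, by rw [zpow_mul]; exact hk⟩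

end Pool.Agent.H84.OR
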