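import Pool.Agent.H84.OR.TB

/-!
# Row TH of org_modules: an element without fixed vertex has an axis
-/

set_option autoImplicit false

namespace Pool.Agent.H84.OR

open ORg

theorem pf_TH (TA : T_TA) (TN : T_TN) (TP : T_TP) : T_TH := by
  intro G _ S g hg
  obtain ⟨a, b, h⟩ := exists_mv TA hg
  exact ⟨a, b, h.axis TA TN⟩

end Pool.Agent.H84.OR
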