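import Pool.Agent.H84.OR.TP

/-!
# Row TK of org_modules: groups of the class `KK` fix a vertex
-/

set_option autoImplicit false

namespace Pool.Agent.H84.OR

open ORg

theorem pf_TK (TA : T_TA) (TN : T_TN) (TC : T_TC) : T_TK := by
  intro P _ S hKK hac
  obtain ⟨c, b, hinf, hcom, hb⟩ := hKK
  have hTA := TA P S
  obtain ⟨-, hadj, hhs, hpart, hmem, -, -, -, hstep, -⟩ := hTA
  obtain ⟨-, -, n3⟩ := TN P S
  set F : Set S.V := {v | ∃ n : ℤ, n ≠ 0 ∧ (c ^ n) • v = v} with hF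
  have hinv : ∀ (g : P) (v : S.V), v ∈ F → g • v ∈ F := by
    rintro g v ⟨n, hn, hv⟩
    obtain ⟨k, l, hk, hl, hkl⟩ := hcom g
    refine ⟨l * n, mul_ne_zero hl hn, ?_⟩
    have h1 : c ^ (l * n) * g = g * (c ^ n) ^ k := by
      rw [zpow_mul, ← hkl, conj_zpow, ← zpow_mul, ← zpow_mul, mul_comm n k]
      group
    rw [← mul_smul, h1, mul_smul, zpow_fix hv]
  have hne : ∃ v, v ∈ F := by
    by_contra hcon
    push Not at hcon
    have hc : ∀ v : S.V, c • v ≠ v := by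
      intro v hv
      exact hcon v ⟨1, one_ne_zero, by rw [zpow_one]; exact hv⟩
    obtain ⟨m, n, hm, hn, hmn⟩ := hcom b
    obtain ⟨k, hk, hkm⟩ := TC P S c b m n hac hc hm hn hmn
    exact hb k hk hkm
  have hboth : ∀ u v : S.V, u ∈ F → v ∈ F → ∃ n : ℤ, n ≠ 0 ∧ (c ^ n) • u = u ∧
      (c ^ n) • v = v := by
    rintro u v ⟨n, hn, hu⟩ ⟨n', hn', hv⟩
    refine ⟨n * n', mul_ne_zero hn hn', ?_, ?_⟩
    · rw [zpow_mul]
      exact zpow_fix hu n'
    · rw [mul_comm, zpow_mul]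
      exact zpow_fix hv n
  by_cases hred : ∃ v ∈ F, S.red v
  · obtain ⟨v, hv, hr⟩ := hred
    refine ⟨v, fun g => ?_⟩
    obtain ⟨n, hn, h1, h2⟩ := hboth (g • v) v (hinv g v hv) hv
    exact hac (c ^ n) (hinf n hn) _ _ ((S.red_smul g v).2 hr) hr h1 h2
  · push Not at hred
    obtain ⟨v, hv⟩ := hne
    refine ⟨v, fun g => ?_⟩
    by_contra hcon
    obtain ⟨n, hn, h1, h2⟩ := hboth (g • v) v (hinv g v hv) hv
    obtain ⟨a, hadj', ha⟩ := hstep (g • v) v hcon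
    have h3 := n3 (c ^ n) (g • v) v (g • v) a h1 h2 hadj' (hmem _ _ hadj').1 ha
    have h4 : a ∈ F := ⟨n, hn, h3.2⟩
    have h5 := hred a h4
    have h6 := hred (g • v) (hinv g v hv)
    have h7 := S.red_adj _ _ hadj'
    tauto

end Pool.Agent.H84.OR
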