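import Pool.Agent.H84.OR.TB

/-!
# Row TL of org_modules: the translation length
-/

set_option autoImplicit false

namespace Pool.Agent.H84.OR

open ORg

section

variable {G : Type} [Group G] {S : GTree G}

theorem dist_pow_le (TA : T_TA) (x : S.V) (g : G) (k : ℕ) :
    S.T.dist x ((g ^ k) • x) ≤ k * S.T.dist x (g • x) := by
  have hd := (TA G S).1
  have hconn := S.tree.connected
  induction k with
  | zero => rw [pow_zero, one_smul, SimpleGraph.dist_self]; exact Nat.zero_le _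
  | succ k ih =>
    have h1 := hconn.dist_triangle (u := x) (v := (g ^ k) • x) (w := (g ^ (k + 1)) • x)
    have h2 : S.T.dist ((g ^ k) • x) ((g ^ (k + 1)) • x) = S.T.dist x (g • x) := by
      rw [pow_succ, mul_smul, hd]
    rw [add_mul, one_mul]
    omega

theorem dist_inv (TA : T_TA) (x : S.V) (g : G) :
    S.T.dist x (g⁻¹ • x) = S.T.dist x (g • x) := by
  have hd := (TA G S).1
  rw [← hd g, smul_inv_smul, SimpleGraph.dist_comm]

theorem dist_zpow (TA : T_TA) (x : S.V) (g : G) (k : ℤ) :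
    S.T.dist x ((g ^ k) • x) = S.T.dist x ((g ^ k.natAbs) • x) := by
  rcases Int.natAbs_eq k with h | h
  · conv_lhs => rw [h, zpow_natCast]
  · conv_lhs => rw [h, zpow_neg, zpow_natCast, dist_inv TA]

end

theorem conj_pow_pow {G : Type} [Group G] {c g : G} {m n : ℤ} (h : g * c ^ m * g⁻¹ = c ^ n)
    (j : ℕ) : g ^ j * c ^ (m ^ j) * (g ^ j)⁻¹ = c ^ (n ^ j) := by
  induction j with
  | zero => simp
  | succ j ih =>
    have h1 : g ^ (j + 1) * c ^ (m ^ (j + 1)) * (g ^ (j + 1))⁻¹ =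
        g * (g ^ j * c ^ (m ^ j) * (g ^ j)⁻¹) ^ m * g⁻¹ := by
      rw [conj_zpow, ← zpow_mul, ← pow_succ, pow_succ' g]
      group
    rw [h1, ih, ← zpow_mul, mul_comm, zpow_mul, ← conj_zpow, h, ← zpow_mul, ← pow_succ']

theorem no_exp {m n R L : ℕ} (hm : 0 < m) (hmn : m < n)
    (h : ∀ j : ℕ, n ^ j ≤ 2 * (j * R) + m ^ j * L) : False := by
  have hm0 : (0 : ℝ) < m := by exact_mod_cast hm
  have hq : (1 : ℝ) < (n : ℝ) / m := by
    rw [one_lt_div hm0]
    exact_mod_cast hmn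
  have h1 := tendsto_pow_const_div_const_pow_of_one_lt 1 hq
  have h2 := tendsto_pow_const_div_const_pow_of_one_lt 0 hq
  have h3 := (h1.const_mul (2 * (R : ℝ))).add (h2.const_mul (L : ℝ))
  rw [mul_zero, mul_zero, add_zero] at h3
  obtain ⟨j, hj⟩ := (h3.eventually (gt_mem_nhds (zero_lt_one' ℝ))).exists
  have hqj : 0 < ((n : ℝ) / m) ^ j := by positivity
  have hmj : (1 : ℝ) ≤ (m : ℝ) ^ j := one_le_pow₀ (by exact_mod_cast hm)
  have h4 : (n : ℝ) ^ j ≤ 2 * (j * R) + (m : ℝ) ^ j * L := by exact_mod_cast h j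
  have h5 : 2 * (R : ℝ) * (j ^ 1 / ((n : ℝ) / m) ^ j) + L * (j ^ 0 / ((n : ℝ) / m) ^ j) =
      (2 * (j * R) + L) / ((n : ℝ) / m) ^ j := by
    rw [pow_one, pow_zero]
    ring
  rw [h5, div_lt_one hqj, div_pow, lt_div_iff₀ (by positivity)] at hj
  have h6 : 2 * ((j : ℝ) * R) ≤ (2 * (j * R)) * (m : ℝ) ^ j :=
    le_mul_of_one_le_right (by positivity) hmj
  nlinarith

theorem tl_le (TA : T_TA) (TN : T_TN) {G : Type} [Group G] (S : GTree G) (c g : G) (m n : ℤ)
    (hc : ∀ v : S.V, c • v ≠ v) (hm : m ≠ 0) (h : g * c ^ m * g⁻¹ = c ^ n) :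
    n.natAbs ≤ m.natAbs := by
  by_contra hcon
  push Not at hcon
  have hd := (TA G S).1
  have hconn := S.tree.connected
  obtain ⟨a, b, hab⟩ := exists_mv TA hc
  refine no_exp (R := S.T.dist a (g • a)) (L := S.T.dist a (c • a)) (Int.natAbs_pos.2 hm) hcon ?_
  intro j
  have h1 : n.natAbs ^ j ≤ S.T.dist a ((c ^ (n ^ j)) • a) := by
    rw [dist_zpow TA, Int.natAbs_pow]
    exact hab.le_dist TA TN _
  have h2 : S.T.dist a ((c ^ (m ^ j)) • a) ≤ m.natAbs ^ j * S.T.dist a (c • a) := by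
    rw [dist_zpow TA, Int.natAbs_pow]
    exact dist_pow_le TA a c _
  have h3 : S.T.dist a ((g ^ j) • a) ≤ j * S.T.dist a (g • a) := dist_pow_le TA a g j
  have h4 : S.T.dist a ((g ^ j)⁻¹ • a) ≤ j * S.T.dist a (g • a) := by
    rw [dist_inv TA]
    exact h3
  rw [← conj_pow_pow h j, mul_smul, mul_smul] at h1
  have h5 := hconn.dist_triangle (u := a) (v := (g ^ j) • a)
    (w := (g ^ j) • (c ^ (m ^ j)) • (g ^ j)⁻¹ • a)
  have h6 := hconn.dist_triangle (u := a) (v := (c ^ (m ^ j)) • a)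
    (w := (c ^ (m ^ j)) • (g ^ j)⁻¹ • a)
  rw [hd] at h5 h6
  omega

theorem pf_TL (TA : T_TA) (TN : T_TN) (TP : T_TP) (TH : T_TH) : T_TL := by
  intro G _ S c g m n hc hm hn h
  have h1 := tl_le TA TN S c g m n hc hm h
  have h' : g⁻¹ * c ^ n * g⁻¹⁻¹ = c ^ m := by
    rw [← h]
    group
  have h2 := tl_le TA TN S c g⁻¹ n m hc hn h'
  have h3 : n.natAbs = m.natAbs := le_antisymm h1 h2
  rw [Int.abs_eq_natAbs, Int.abs_eq_natAbs, h3]

end Pool.Agent.H84.OR
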