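import Pool.Agent.H5.OR.Targets

/-!
# Rows TP, TH, TL, TC of org_modules: common lemmas on translations of a tree
-/

set_option autoImplicit false

namespace Pool.Agent.H84.OR

open ORg

/-- `g` moves the edge `a b` in the direction of `b` -/
def Mv {G : Type} [Group G] (S : GTree G) (g : G) (a b : S.V) : Prop :=
  S.T.Adj a b ∧ g • a ∈ S.hs b a ∧ a ∈ S.hs (g • a) (g • b)

section

variable {G : Type} [Group G] {S : GTree G}

theorem not_swap {g : G} {a b : S.V} (hab : S.T.Adj a b) : g • a ≠ b := by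
  intro h
  have h1 := S.red_smul g a
  have h2 := S.red_adj a b hab
  rw [h] at h1
  tauto

/-- first consequences of `Mv` -/
theorem Mv.both (TA : T_TA) (TN : T_TN) {g : G} {a b : S.V} (h : Mv S g a b) :
    g • b ∈ S.hs b a ∧ b ∈ S.hs (g • a) (g • b) := by
  obtain ⟨-, hadj, -, hpart, hmem, -⟩ := TA G S
  obtain ⟨n1, -⟩ := TN G S
  obtain ⟨hab, h1, h2⟩ := h
  have hab' : S.T.Adj (g • a) (g • b) := (hadj g a b).2 hab
  have hne : g • a ≠ a := by
    intro h
    rw [h] at h1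
    exact (hmem b a hab.symm).2 h1
  have hsw : g • a ≠ b := not_swap hab
  constructor
  · rcases n1 a b (g • a) (g • b) hab hab' (fun h => hne h.1) (fun h => hsw h.1) with h | h
    · exact absurd ⟨h.1, h1⟩ (hpart a b hab _).2
    · exact h.2
  · rcases n1 (g • a) (g • b) a b hab' hab (fun h => hne h.1.symm)
      (fun h => hsw h.2.symm) with h | h
    · exact h.2
    · exact absurd ⟨h2, h.1⟩ (hpart _ _ hab' _).2

/-- the half tree `hs b a` is mapped into itself -/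
theorem Mv.stable (TA : T_TA) (TN : T_TN) {g : G} {a b : S.V} (h : Mv S g a b) (v : S.V)
    (hv : v ∈ S.hs b a) : g • v ∈ S.hs b a := by
  obtain ⟨-, hadj, hhs, -⟩ := TA G S
  obtain ⟨-, n2, -⟩ := TN G S
  obtain ⟨h3, h4⟩ := h.both TA TN
  obtain ⟨hab, h1, h2⟩ := h
  exact n2 a b (g • a) (g • b) hab ((hadj g a b).2 hab) h1 h3 h2 h4 _ ((hhs g b a v).2 hv)

theorem Mv.stable_pow (TA : T_TA) (TN : T_TN) {g : G} {a b : S.V} (h : Mv S g a b) (v : S.V)
    (hv : v ∈ S.hs b a) (n : ℕ) : (g ^ n) • v ∈ S.hs b a := by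
  induction n with
  | zero => rw [pow_zero, one_smul]; exact hv
  | succ n ih =>
    rw [pow_succ', mul_smul]
    exact h.stable TA TN _ ih

/-- `hs a b` is mapped into itself by the inverse -/
theorem Mv.inv (TA : T_TA) (TN : T_TN) {g : G} {a b : S.V} (h : Mv S g a b) : Mv S g⁻¹ b a := by
  obtain ⟨-, -, hhs, -⟩ := TA G S
  obtain ⟨h3, h4⟩ := h.both TA TN
  refine ⟨h.1.symm, ?_, ?_⟩
  · rw [← hhs g, smul_inv_smul]
    exact h4
  · rw [← hhs g, smul_inv_smul, smul_inv_smul]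
    exact h3

theorem Mv.stable_inv (TA : T_TA) (TN : T_TN) {g : G} {a b : S.V} (h : Mv S g a b) (v : S.V)
    (hv : v ∈ S.hs a b) (n : ℕ) : (g⁻¹ ^ n) • v ∈ S.hs a b :=
  (h.inv TA TN).stable_pow TA TN v hv n

/-- every vertex is moved into `hs b a` -/
theorem Mv.attract (TA : T_TA) (TN : T_TN) {g : G} {a b : S.V} (h : Mv S g a b) (v : S.V) :
    ∃ N : ℕ, ∀ n : ℕ, N ≤ n → (g ^ n) • v ∈ S.hs b a := by
  have hTA := TA G S
  obtain ⟨-, hadj, hhs, hpart, hmem, -, -, -, -, hfin⟩ := hTA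
  have hab := h.1
  have key : ∃ N : ℕ, (g ^ N) • v ∈ S.hs b a := by
    by_contra hcon
    push Not at hcon
    have hA : ∀ n : ℕ, (g ^ n) • v ∈ S.hs a b := fun n =>
      ((hpart a b hab ((g ^ n) • v)).1).resolve_right (hcon n)
    have hfin' := hfin v b
    have hmap : ∀ n : ℕ, ((g ^ n)⁻¹ • a, (g ^ n)⁻¹ • b) ∈ {p : S.V × S.V | S.T.Adj p.1 p.2 ∧
        v ∈ S.hs p.1 p.2 ∧ b ∈ S.hs p.2 p.1} := by
      intro n
      refine ⟨(hadj _ a b).2 hab, ?_, ?_⟩
      · have := hA n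
        rw [← hhs (g ^ n)⁻¹, inv_smul_smul] at this
        exact this
      · have := h.stable_pow TA TN b (hmem b a hab.symm).1 n
        rw [← hhs (g ^ n)⁻¹, inv_smul_smul] at this
        exact this
    have hfin2 : Finite {p : S.V × S.V | S.T.Adj p.1 p.2 ∧
        v ∈ S.hs p.1 p.2 ∧ b ∈ S.hs p.2 p.1} := hfin'
    obtain ⟨i, j, hij, he⟩ := Finite.exists_ne_map_eq_of_infinite
      (fun n : ℕ => (⟨_, hmap n⟩ : {p : S.V × S.V | S.T.Adj p.1 p.2 ∧
        v ∈ S.hs p.1 p.2 ∧ b ∈ S.hs p.2 p.1}))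
    rw [Subtype.mk.injEq, Prod.mk.injEq] at he
    have hlt : ∀ i j : ℕ, i < j → (g ^ i)⁻¹ • a = (g ^ j)⁻¹ • a → False := by
      intro i j hij he
      obtain ⟨d, rfl⟩ : ∃ d, j = i + (d + 1) := ⟨j - i - 1, by omega⟩
      have h1 : (g ^ (d + 1)) • a = a := by
        rw [inv_smul_eq_iff] at he
        rw [pow_add, mul_inv_rev, mul_smul, ← mul_smul (g ^ i), ] at he
        rw [show g ^ i * (g ^ (d + 1))⁻¹ = (g ^ (d + 1))⁻¹ * g ^ i from
          ((Commute.refl g).pow_pow i (d + 1)).inv_right.eq, mul_smul, smul_inv_smul] at he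
        rw [eq_comm, inv_smul_eq_iff] at he
        exact he.symm
      have h2 : (g ^ (d + 1)) • a ∈ S.hs b a := by
        rw [pow_succ, mul_smul]
        exact h.stable_pow TA TN _ h.2.1 d
      rw [h1] at h2
      exact (hmem b a hab.symm).2 h2
    rcases Nat.lt_or_gt_of_ne hij with h' | h'
    · exact hlt i j h' he.1
    · exact hlt j i h' he.1.symm
  obtain ⟨N, hN⟩ := key
  refine ⟨N, fun n hn => ?_⟩
  obtain ⟨d, rfl⟩ : ∃ d, n = d + N := ⟨n - N, by omega⟩
  rw [pow_add, mul_smul]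
  exact h.stable_pow TA TN _ hN d

theorem Mv.axis (TA : T_TA) (TN : T_TN) {g : G} {a b : S.V} (h : Mv S g a b) :
    S.Axis g a b := by
  refine ⟨h.1, fun v => ?_⟩
  obtain ⟨N, hN⟩ := h.attract TA TN v
  obtain ⟨N', hN'⟩ := (h.inv TA TN).attract TA TN v
  exact ⟨max N N', fun n hn => ⟨hN n (le_trans (le_max_left _ _) hn),
    hN' n (le_trans (le_max_right _ _) hn)⟩⟩

/-- an element without fixed vertex moves an edge -/
theorem exists_mv (TA : T_TA) {g : G} (hg : ∀ v : S.V, g • v ≠ v) : ∃ a b : S.V, Mv S g a b := by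
  have hTA := TA G S
  obtain ⟨hd, hadj, hhs, hpart, hmem, hdist, hcross, -, hstep, -⟩ := hTA
  have hne : Nonempty S.V := S.tree.connected.nonempty
  obtain ⟨x, hx⟩ : ∃ x : S.V, ∀ y : S.V, S.T.dist x (g • x) ≤ S.T.dist y (g • y) := by
    obtain ⟨x, -, hx⟩ := WellFounded.has_min (InvImage.wf (fun x : S.V => S.T.dist x (g • x))
      Nat.lt_wfRel.wf) Set.univ Set.univ_nonempty
    exact ⟨x, fun y => not_lt.1 (hx y (Set.mem_univ _))⟩
  obtain ⟨y, hxy, hy⟩ := hstep x (g • x) (hg x).symm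
  refine ⟨x, y, hxy, hy, ?_⟩
  have hgxy : S.T.Adj (g • x) (g • y) := (hadj g x y).2 hxy
  by_contra hcon
  have h1 : x ∈ S.hs (g • y) (g • x) := ((hpart _ _ hgxy x).1).resolve_left hcon
  have h2 : S.T.dist x (g • x) = S.T.dist x (g • y) + 1 := hdist _ _ hgxy.symm x h1
  have h3 : S.T.dist (g • x) x = S.T.dist (g • x) y + 1 := hdist _ _ hxy.symm _ hy
  rw [S.T.dist_comm (u := g • x) (v := x), S.T.dist_comm (u := g • x) (v := y)] at h3
  rcases (hpart _ _ hgxy y).1 with h4 | h4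
  · have h5 := hcross _ _ hgxy y x hxy.symm h4 h1
    exact not_swap hxy h5.1.symm
  · have h5 : S.T.dist y (g • x) = S.T.dist y (g • y) + 1 := hdist _ _ hgxy.symm y h4
    have h6 := hx y
    omega

/-- the displacement of a power is at least the exponent -/
theorem Mv.le_dist (TA : T_TA) (TN : T_TN) {g : G} {a b : S.V} (h : Mv S g a b) (k : ℕ) :
    k ≤ S.T.dist a ((g ^ k) • a) := by
  have hTA := TA G S
  obtain ⟨-, hadj, hhs, hpart, hmem, -, -, hdist2, -, -⟩ := hTA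
  have hab := h.1
  induction k with
  | zero => exact Nat.zero_le _
  | succ k ih =>
    have h1 : a ∈ S.hs ((g ^ k) • a) ((g ^ k) • b) := by
      rw [← hhs (g ^ k)⁻¹, inv_smul_smul, inv_smul_smul, ← inv_pow]
      exact h.stable_inv TA TN a (hmem a b hab).1 k
    have h2 : (g ^ (k + 1)) • a ∈ S.hs ((g ^ k) • b) ((g ^ k) • a) := by
      rw [pow_succ, mul_smul, hhs]
      exact h.2.1
    have h3 := hdist2 _ _ ((hadj (g ^ k) a b).2 hab) a _ h1 h2
    omega

end

end Pool.Agent.H84.OR
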