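import Pool.Agent.H84.OR.TB

/-!
# Row TP of org_modules: translations
-/

set_option autoImplicit false

namespace Pool.Agent.H84.OR

open ORg

theorem pow_fix {G V : Type} [Group G] [MulAction G V] {g : G} {v : V} (h : g • v = v) (n : ℕ) :
    (g ^ n) • v = v := by
  induction n with
  | zero => rw [pow_zero, one_smul]
  | succ n ih => rw [pow_succ, mul_smul, h, ih]

theorem zpow_fix {G V : Type} [Group G] [MulAction G V] {g : G} {v : V} (h : g • v = v) (n : ℤ) :
    (g ^ n) • v = v := by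
  rcases Int.eq_nat_or_neg n with ⟨k, rfl | rfl⟩
  · rw [zpow_natCast]
    exact pow_fix h k
  · rw [zpow_neg, zpow_natCast, inv_smul_eq_iff]
    exact (pow_fix h k).symm

theorem pf_TP (TA : T_TA) (TN : T_TN) : T_TP := by
  intro G _ S g a b
  refine ⟨fun hab h1 h2 => Mv.axis TA TN ⟨hab, h1, h2⟩, ?_⟩
  intro hax n hn v hv
  obtain ⟨hab, hax⟩ := hax
  have hpart := (TA G S).2.2.2.1
  obtain ⟨k, hk0, hk⟩ : ∃ k : ℕ, 0 < k ∧ (g ^ k) • v = v := by
    refine ⟨n.natAbs, Int.natAbs_pos.2 hn, ?_⟩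
    rcases Int.natAbs_eq n with h | h
    · rw [h, zpow_natCast] at hv
      exact hv
    · rw [h, zpow_neg, zpow_natCast, inv_smul_eq_iff] at hv
      exact hv.symm
  obtain ⟨N, hN⟩ := hax v
  have hle : N ≤ k * N := Nat.le_mul_of_pos_left N hk0
  have h1 : (g ^ (k * N)) • v = v := by
    rw [pow_mul]
    exact pow_fix hk N
  have h2 : (g⁻¹ ^ (k * N)) • v = v := by
    rw [inv_pow, inv_smul_eq_iff]
    exact h1.symm
  have h3 := hN (k * N) hle
  rw [h1, h2] at h3
  exact (hpart a b hab v).2 ⟨h3.2, h3.1⟩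

end Pool.Agent.H84.OR
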